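import Pool.Agent.MNU.StmtsU

set_option autoImplicit false

/-!
MNU row HB2: genus 2, harmonic and arithmetic mean.
-/

namespace Pool.Agent.MNU.H77

open Pool.Agent.MNU Pool.Agent.MNT
open scoped Classical

section tree

variable {V : Type} [Fintype V] [PartialOrder V] [OrderTop V] (T : MNT.Tree V)

theorem mem_kids {v c : V} : c ∈ T.kids v ↔ c ≠ ⊤ ∧ T.par c = v := by
  simp [MNT.Tree.kids]

theorem kid_lt {v c : V} (h : c ∈ T.kids v) : c < v := by
  have h1 := (mem_kids T).1 h
  have := T.lt_par c h1.1
  rwa [h1.2] at this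

theorem ex_kid (v w : V) (h : v < w) : ∃ c ∈ T.kids w, v ≤ c := by
  induction v using (wellFounded_gt (α := V)).induction with
  | _ v ih =>
    have hv : v ≠ ⊤ := ne_top_of_lt h
    rcases (T.par_le v w h).eq_or_lt with h1 | h1
    · exact ⟨v, (mem_kids T).2 ⟨hv, h1⟩, le_rfl⟩
    · obtain ⟨c, hc, h2⟩ := ih (T.par v) (T.lt_par v hv) h1
      exact ⟨c, hc, (T.lt_par v hv).le.trans h2⟩

include T in
theorem chain (e x y : V) (hx : e ≤ x) (hy : e ≤ y) : x ≤ y ∨ y ≤ x := by
  induction e using (wellFounded_gt (α := V)).induction with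
  | _ e ih =>
    rcases hx.eq_or_lt with h | h
    · left
      rw [← h]
      exact hy
    · rcases hy.eq_or_lt with h' | h'
      · right
        rw [← h']
        exact hx
      · exact ih (T.par e) (T.lt_par e (ne_top_of_lt h)) (T.par_le e x h) (T.par_le e y h')

theorem kids_disj {v c c' e : V} (hc : c ∈ T.kids v) (hc' : c' ∈ T.kids v) (h : e ≤ c)
    (h' : e ≤ c') : c = c' := by
  by_contra hne
  rcases chain T e c c' h h' with h1 | h1
  · have h2 := T.par_le c c' (lt_of_le_of_ne h1 hne)
    rw [((mem_kids T).1 hc).2] at h2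
    exact absurd h2 (not_le_of_gt (kid_lt T hc'))
  · have h2 := T.par_le c' c (lt_of_le_of_ne h1 (Ne.symm hne))
    rw [((mem_kids T).1 hc').2] at h2
    exact absurd h2 (not_le_of_gt (kid_lt T hc))

theorem a_mono (a : V → ℕ) (ha : ∀ v, ∑ c ∈ T.kids v, a c ≤ a v) (v w : V) (h : v ≤ w) :
    a v ≤ a w := by
  induction w using (wellFounded_lt (α := V)).induction with
  | _ w ih =>
    rcases h.eq_or_lt with h1 | h1
    · rw [h1]
    · obtain ⟨c, hc, h2⟩ := ex_kid T v w h1
      exact (ih c (kid_lt T hc) h2).trans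
        ((Finset.single_le_sum (f := a) (fun _ _ => Nat.zero_le _) hc).trans (ha w))

theorem a_add (a : V → ℕ) (ha : ∀ v, ∑ c ∈ T.kids v, a c ≤ a v) (v v' w : V) (h : v ≤ w)
    (h' : v' ≤ w) (hn : ¬ v ≤ v') (hn' : ¬ v' ≤ v) : a v + a v' ≤ a w := by
  induction w using (wellFounded_lt (α := V)).induction with
  | _ w ih =>
    have h1 : v < w := lt_of_le_of_ne h (by rintro rfl; exact hn' h')
    have h1' : v' < w := lt_of_le_of_ne h' (by rintro rfl; exact hn h)
    obtain ⟨c, hc, h2⟩ := ex_kid T v w h1
    obtain ⟨c', hc', h2'⟩ := ex_kid T v' w h1'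
    by_cases hcc : c = c'
    · subst hcc
      exact (ih c (kid_lt T hc) h2 h2').trans (a_mono T a ha c w (kid_lt T hc).le)
    · have h3 := a_mono T a ha v c h2
      have h3' := a_mono T a ha v' c' h2'
      have h4 : a c + a c' ≤ ∑ d ∈ T.kids w, a d := by
        rw [← Finset.sum_pair hcc]
        apply Finset.sum_le_sum_of_subset
        intro x hx
        simp only [Finset.mem_insert, Finset.mem_singleton] at hx
        rcases hx with rfl | rfl
        · exact hc
        · exact hc'
      have := ha w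
      omega

variable {T} {G : V → Prop} {a b : V → ℕ} {l s r : V → ℝ}

theorem branch (L : Lb 2 T G a b) (v : V) (hv : ¬ G v) : (T.kids v).card = 1 ∨
    (a v = 4 ∧ ∃ c c', c ≠ c' ∧ T.kids v = {c, c'} ∧ a c = 2 ∧ a c' = 2) := by
  have h1 : ∀ c ∈ T.kids v, 2 ≤ a c := by
    intro c hc
    obtain ⟨k, hk⟩ := L.kids_even v hv c hc
    have := L.a_pos c
    omega
  have h2 : (T.kids v).card * 2 ≤ a v := by
    rw [← L.sum_eq v hv]
    have := Finset.card_nsmul_le_sum (T.kids v) a 2 h1
    simpa using this
  have h3 := L.a_le v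
  have h4 := L.a_pos v
  have h5 : (T.kids v).card ≠ 0 := by
    intro h0
    have h6 := L.sum_eq v hv
    rw [Finset.card_eq_zero.1 h0, Finset.sum_empty] at h6
    omega
  have h6 : (T.kids v).card = 1 ∨ (T.kids v).card = 2 := by omega
  rcases h6 with h6 | h6
  · left
    exact h6
  · right
    obtain ⟨c, c', hne, hk⟩ := Finset.card_eq_two.1 h6
    have h7 := L.sum_eq v hv
    rw [hk, Finset.sum_pair hne] at h7
    have h8 := h1 c (by rw [hk]; simp)
    have h9 := h1 c' (by rw [hk]; simp)
    obtain ⟨k, hk2⟩ := L.even v hv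
    exact ⟨by omega, c, c', hne, hk, by omega, by omega⟩

theorem only2 (L : Lb 2 T G a b) (v : V) (hv : ¬ G v) (ha : a v = 2) :
    ∃ d, T.kids v = {d} ∧ a d = 2 := by
  rcases branch L v hv with h | ⟨h, _⟩
  · obtain ⟨d, hd⟩ := Finset.card_eq_one.1 h
    have h7 := L.sum_eq v hv
    rw [hd, Finset.sum_singleton] at h7
    exact ⟨d, hd, by omega⟩
  · omega

theorem only4 (L : Lb 2 T G a b) (w u : V) (hw : ¬ G w) (hu : u ∈ T.kids w) (ha : a u = 4) :
    T.kids w = {u} ∧ a w = 4 := by
  rcases branch L w hw with h | ⟨_, c, c', _, hk, hc, hc'⟩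
  · obtain ⟨d, hd⟩ := Finset.card_eq_one.1 h
    have h7 := L.sum_eq w hw
    rw [hd, Finset.sum_singleton] at h7
    rw [hd, Finset.mem_singleton] at hu
    subst hu
    exact ⟨hd, by omega⟩
  · rw [hk] at hu
    simp only [Finset.mem_insert, Finset.mem_singleton] at hu
    rcases hu with rfl | rfl <;> omega

theorem low (L : Lb 2 T G a b) (R : Res T G l s r) (hl : ∀ c, c ≠ ⊤ → 0 < l c) (c : V)
    (hc : c ≠ ⊤) (ha : a c = 2) : l c + s c ≤ ∑ e with e ≤ c ∧ Even (a e), l e := by
  induction c using (wellFounded_lt (α := V)).induction with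
  | _ c ih =>
    have hpos : ∀ e ∈ Finset.univ.filter (fun e => e ≤ c ∧ Even (a e)), 0 ≤ l e := by
      intro e he
      have h1 := (Finset.mem_filter.1 he).2.1
      have h2 : e ≠ ⊤ := ne_top_of_le_ne_top hc h1
      exact (hl e h2).le
    have hmem : c ∈ Finset.univ.filter (fun e => e ≤ c ∧ Even (a e)) := by
      rw [Finset.mem_filter]
      refine ⟨Finset.mem_univ _, le_rfl, ?_⟩
      rw [ha]
      exact even_two
    by_cases hG : G c
    · rw [R.s_grd c hG, add_zero]
      exact Finset.single_le_sum hpos hmem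
    · obtain ⟨d, hd, had⟩ := only2 L c hG ha
      have h1 : s c = l d + s d := by
        have h0 := R.s_eq c hG
        rw [hd, Finset.sum_singleton] at h0
        exact inv_injective h0
      have hdk : d ∈ T.kids c := by
        rw [hd]
        exact Finset.mem_singleton_self d
      have h2 := ih d (kid_lt T hdk) ((mem_kids T).1 hdk).1 had
      have h3 : insert c (Finset.univ.filter (fun e => e ≤ d ∧ Even (a e))) ⊆
          Finset.univ.filter (fun e => e ≤ c ∧ Even (a e)) := by
        intro x hx
        rw [Finset.mem_insert, Finset.mem_filter] at hx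
        rcases hx with rfl | hx
        · exact hmem
        · rw [Finset.mem_filter]
          exact ⟨hx.1, hx.2.1.trans (kid_lt T hdk).le, hx.2.2⟩
      have h4 : c ∉ Finset.univ.filter (fun e => e ≤ d ∧ Even (a e)) := by
        rw [Finset.mem_filter]
        intro h5
        exact absurd h5.2.1 (not_le_of_gt (kid_lt T hdk))
      calc l c + s c = l c + (l d + s d) := by rw [h1]
        _ ≤ l c + ∑ e with e ≤ d ∧ Even (a e), l e := by linarith
        _ = ∑ e ∈ insert c (Finset.univ.filter (fun e => e ≤ d ∧ Even (a e))), l e :=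
          (Finset.sum_insert h4).symm
        _ ≤ _ := Finset.sum_le_sum_of_subset_of_nonneg h3 (fun e he _ => hpos e he)

theorem upp (L : Lb 2 T G a b) (R : Res T G l s r) (hl : ∀ c, c ≠ ⊤ → 0 < l c) (u : V)
    (hu : u ≠ ⊤) (ha : a u = 4) :
    l u + r u ≤ ∑ e with u ≤ e ∧ e ≠ ⊤ ∧ Even (a e), l e := by
  induction u using (wellFounded_gt (α := V)).induction with
  | _ u ih =>
    have hpos : ∀ e ∈ Finset.univ.filter (fun e => u ≤ e ∧ e ≠ ⊤ ∧ Even (a e)), 0 ≤ l e := by
      intro e he
      exact (hl e (Finset.mem_filter.1 he).2.2.1).le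
    have hmem : u ∈ Finset.univ.filter (fun e => u ≤ e ∧ e ≠ ⊤ ∧ Even (a e)) := by
      rw [Finset.mem_filter]
      refine ⟨Finset.mem_univ _, le_rfl, hu, ?_⟩
      rw [ha]
      exact ⟨2, rfl⟩
    have hlt := T.lt_par u hu
    by_cases hG : G (T.par u)
    · rw [R.r_grd u hu hG, add_zero]
      exact Finset.single_le_sum hpos hmem
    · have huk : u ∈ T.kids (T.par u) := (mem_kids T).2 ⟨hu, rfl⟩
      obtain ⟨hk, haw⟩ := only4 L (T.par u) u hG huk ha
      have hw : T.par u ≠ ⊤ := by
        intro h
        rw [h] at hG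
        exact hG L.top
      have h1 : r u = l (T.par u) + r (T.par u) := by
        have h0 := R.r_eq u hu hG
        rw [hk, Finset.erase_singleton, Finset.sum_empty, add_zero] at h0
        exact inv_injective h0
      have h2 := ih (T.par u) hlt hw haw
      have h3 : insert u (Finset.univ.filter (fun e => T.par u ≤ e ∧ e ≠ ⊤ ∧ Even (a e))) ⊆
          Finset.univ.filter (fun e => u ≤ e ∧ e ≠ ⊤ ∧ Even (a e)) := by
        intro x hx
        rw [Finset.mem_insert, Finset.mem_filter] at hx
        rcases hx with rfl | hx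
        · exact hmem
        · rw [Finset.mem_filter]
          exact ⟨hx.1, hlt.le.trans hx.2.1, hx.2.2⟩
      have h4 : u ∉ Finset.univ.filter (fun e => T.par u ≤ e ∧ e ≠ ⊤ ∧ Even (a e)) := by
        rw [Finset.mem_filter]
        intro h5
        exact absurd h5.2.1 (not_le_of_gt hlt)
      calc l u + r u = l u + (l (T.par u) + r (T.par u)) := by rw [h1]
        _ ≤ l u + ∑ e with T.par u ≤ e ∧ e ≠ ⊤ ∧ Even (a e), l e := by linarith
        _ = ∑ e ∈ insert u (Finset.univ.filter
            (fun e => T.par u ≤ e ∧ e ≠ ⊤ ∧ Even (a e))), l e := (Finset.sum_insert h4).symm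
        _ ≤ _ := Finset.sum_le_sum_of_subset_of_nonneg h3 (fun e he _ => hpos e he)

/-- at most one node is branching -/
theorem uniq (L : Lb 2 T G a b) (v v' c c' d d' : V) (ha : a v = 4) (ha' : a v' = 4)
    (hk : T.kids v = {c, c'}) (hc : a c = 2) (hc' : a c' = 2)
    (hk' : T.kids v' = {d, d'}) (hd : a d = 2) (hd' : a d' = 2) : v = v' := by
  by_contra hne
  have key : ∀ v w c c' : V, v < w → a v = 4 → T.kids w = {c, c'} → a c = 2 → a c' = 2 →
      False := by
    intro v w c c' hvw hav hkw h1 h2
    obtain ⟨e, he, hve⟩ := ex_kid T v w hvw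
    have h3 := a_mono T a L.a_kids v e hve
    rw [hkw] at he
    simp only [Finset.mem_insert, Finset.mem_singleton] at he
    rcases he with rfl | rfl <;> omega
  by_cases h1 : v ≤ v'
  · exact key v v' d d' (lt_of_le_of_ne h1 hne) ha hk' hd hd'
  · by_cases h2 : v' ≤ v
    · exact key v' v c c' (lt_of_le_of_ne h2 (Ne.symm hne)) ha' hk hc hc'
    · have h3 := a_add T a L.a_kids v v' ⊤ le_top le_top h1 h2
      have h4 := L.a_le (⊤ : V)
      omega

end tree

theorem hm (x y z s : ℝ) (hx : 0 < x) (hy : 0 < y) (hz : 0 < z) (hs : s⁻¹ = y⁻¹ + z⁻¹) :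
    s * x / (s + x) ≤ (x + y + z) / 9 := by
  have h1 : s = y * z / (y + z) := by
    rw [← inv_inv s, hs]
    field_simp
    ring
  have h2 : s * x / (s + x) = x * y * z / (x * y + y * z + z * x) := by
    rw [h1]
    field_simp
    ring
  rw [h2, div_le_div_iff₀ (by positivity) (by norm_num)]
  nlinarith [mul_nonneg hx.le (sq_nonneg (y - z)), mul_nonneg hy.le (sq_nonneg (x - z)),
    mul_nonneg hz.le (sq_nonneg (x - y))]

theorem hb2 (hidj : IdjStmt) : Hb2Stmt := by
  intro V _ _ _ T G a b l s r hl L R
  rw [hidj V T G l s r hl L.top R]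
  have hnn : 0 ≤ ∑ c with c ≠ ⊤ ∧ Even (a c), l c := by
    apply Finset.sum_nonneg
    intro c hc
    exact (hl c (Finset.mem_filter.1 hc).2.1).le
  by_cases hbr : ∃ v, ¬ G v ∧ (T.kids v).card ≠ 1
  · obtain ⟨v, hv, hcard⟩ := hbr
    rcases branch L v hv with h | ⟨hav, c, c', hne, hk, hc, hc'⟩
    · exact absurd h hcard
    have hvt : v ≠ ⊤ := by
      intro h
      rw [h] at hv
      exact hv L.top
    have hsum : ∑ w with ¬ G w, (((T.kids w).card : ℝ) - 1) * hh l s r w = hh l s r v := by
      rw [Finset.sum_eq_single v]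
      · rw [hk, Finset.card_pair hne]
        push_cast
        ring
      · intro w hw hwv
        have hGw : ¬ G w := (Finset.mem_filter.1 hw).2
        rcases branch L w hGw with h | ⟨haw, d, d', hne', hk', hd, hd'⟩
        · rw [h]
          push_cast
          ring
        · exact absurd (uniq L w v d d' c c' haw hav hk' hd hd' hk hc hc') hwv
      · intro h
        exfalso
        apply h
        rw [Finset.mem_filter]
        exact ⟨Finset.mem_univ _, hv⟩
    rw [hsum]
    have hck : c ∈ T.kids v := by rw [hk]; simp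
    have hck' : c' ∈ T.kids v := by rw [hk]; simp
    have hct := ((mem_kids T).1 hck).1
    have hct' := ((mem_kids T).1 hck').1
    have hs0 : ∀ w, 0 ≤ s w := by
      intro w
      by_cases hw : G w
      · exact (R.s_grd w hw).ge
      · exact (R.s_pos w hw).le
    have hr0 : 0 ≤ r v := by
      by_cases hw : G (T.par v)
      · exact (R.r_grd v hvt hw).ge
      · exact (R.r_pos v hvt hw).le
    have hx : 0 < l v + r v := by
      have := hl v hvt
      linarith
    have hy : 0 < l c + s c := by
      have := hl c hct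
      have := hs0 c
      linarith
    have hz : 0 < l c' + s c' := by
      have := hl c' hct'
      have := hs0 c'
      linarith
    have hs : (s v)⁻¹ = (l c + s c)⁻¹ + (l c' + s c')⁻¹ := by
      have h0 := R.s_eq v hv
      rw [hk, Finset.sum_pair hne] at h0
      exact h0
    have h1 := hm (l v + r v) (l c + s c) (l c' + s c') (s v) hx hy hz hs
    have h2 : hh l s r v = s v * (l v + r v) / (s v + (l v + r v)) := by
      unfold hh
      rw [add_assoc]
    rw [← h2] at h1
    have h3 := low L R hl c hct hc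
    have h4 := low L R hl c' hct' hc'
    have h5 := upp L R hl v hvt hav
    have hd1 : Disjoint (Finset.univ.filter (fun e => e ≤ c ∧ Even (a e)))
        (Finset.univ.filter (fun e => e ≤ c' ∧ Even (a e))) := by
      rw [Finset.disjoint_left]
      intro e he he'
      rw [Finset.mem_filter] at he he'
      exact hne (kids_disj T hck hck' he.2.1 he'.2.1)
    have hd2 : Disjoint (Finset.univ.filter (fun e => e ≤ c ∧ Even (a e)) ∪
        Finset.univ.filter (fun e => e ≤ c' ∧ Even (a e)))
        (Finset.univ.filter (fun e => v ≤ e ∧ e ≠ ⊤ ∧ Even (a e))) := by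
      rw [Finset.disjoint_left]
      intro e he he'
      rw [Finset.mem_union, Finset.mem_filter, Finset.mem_filter] at he
      rw [Finset.mem_filter] at he'
      rcases he with he | he
      · exact absurd (he'.2.1.trans he.2.1) (not_le_of_gt (kid_lt T hck))
      · exact absurd (he'.2.1.trans he.2.1) (not_le_of_gt (kid_lt T hck'))
    have h6 : (∑ e with e ≤ c ∧ Even (a e), l e) + (∑ e with e ≤ c' ∧ Even (a e), l e) +
        (∑ e with v ≤ e ∧ e ≠ ⊤ ∧ Even (a e), l e) ≤ ∑ c with c ≠ ⊤ ∧ Even (a c), l c := by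
      rw [← Finset.sum_union hd1, ← Finset.sum_union hd2]
      apply Finset.sum_le_sum_of_subset_of_nonneg
      · intro e he
        rw [Finset.mem_union, Finset.mem_union, Finset.mem_filter, Finset.mem_filter,
          Finset.mem_filter] at he
        rw [Finset.mem_filter]
        rcases he with (he | he) | he
        · exact ⟨he.1, ne_top_of_le_ne_top hct he.2.1, he.2.2⟩
        · exact ⟨he.1, ne_top_of_le_ne_top hct' he.2.1, he.2.2⟩
        · exact ⟨he.1, he.2.2⟩
      · intro e he _
        exact (hl e (Finset.mem_filter.1 he).2.1).le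
    linarith
  · push Not at hbr
    have hsum : ∑ w with ¬ G w, (((T.kids w).card : ℝ) - 1) * hh l s r w = 0 := by
      apply Finset.sum_eq_zero
      intro w hw
      rw [hbr w (Finset.mem_filter.1 hw).2]
      push_cast
      ring
    rw [hsum]
    linarith

end Pool.Agent.MNU.H77
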